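import Pool.Agent.H33.TLC4

set_option autoImplicit false

open Set Filter Topology Cardinal Pool.Agent.H33

namespace Pool.Agent.Results.MP_57347c_gt.LocallySmall

theorem result (h : SLC1.PFA1) (X : Type) [TopologicalSpace X] [T3Space X]
    (hX : ∀ x : X, ∃ V ∈ 𝓝 x, #V ≤ ℵ_ 1)
    (hp : ∀ 𝒰 : Set (Set X), (∀ u ∈ 𝒰, IsOpen u) → ⋃₀ 𝒰 = Set.univ →
      ∃ 𝒱 : Set (Set X), (∀ v ∈ 𝒱, IsOpen v) ∧ ⋃₀ 𝒱 = Set.univ ∧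
        (∀ v ∈ 𝒱, ∃ u ∈ 𝒰, v ⊆ u) ∧
        ∀ x : X, ∃ n ∈ 𝓝 x, {v ∈ 𝒱 | (v ∩ n).Nonempty}.Countable)
    (hb : ∃ 𝓑 : Set (Set X), TopologicalSpace.IsTopologicalBasis 𝓑 ∧
      ∀ (x : X) (b : ℕ → Set X), (∀ n, b n ∈ 𝓑) → (∀ n, x ∈ b n) →
        (∀ n, b (n + 1) ⊂ b n) → ∀ s ∈ 𝓝 x, ∃ n, b n ⊆ s) :
    ∃ 𝓑 : Set (Set X), TopologicalSpace.IsTopologicalBasis 𝓑 ∧
      ∃ f : ℕ → Set (Set X), 𝓑 = ⋃ n, f n ∧
        ∀ (n : ℕ) (x : X), ∃ u ∈ 𝓝 x, {v ∈ f n | (v ∩ u).Nonempty}.Countable := by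
  obtain ⟨𝓑, hb, ho⟩ := hb
  obtain ⟨b, tb⟩ := TLC4.tree hp hb ho
  refine TLC4.main hp (fun F => ?_) (fun P hP => ?_) tb
  · obtain ⟨I, a1, a2, a3⟩ := TLC3.core h hX b tb {Set.univ}
      (fun x => ⟨_, rfl, univ_mem⟩) fun x => {_n | x ∈ F}
    have : F = ⋂ n, ⋃ i ∈ {i ∈ I | i.2 = n}, i.1 := by
      refine (subset_iInter fun n x hx => ?_).antisymm fun z hz => not_not.1 fun e => ?_
      · obtain ⟨i, b1, b2, b3⟩ := a2 x n hx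
        exact mem_biUnion (x := i) ⟨b1, b2⟩ b3
      · refine infinite_univ (((a3 z (by simp [e])).image Prod.snd).subset fun n _ => ?_)
        obtain ⟨i, b1, b2⟩ := mem_iUnion₂.1 (mem_iInter.1 hz n)
        exact ⟨i, ⟨b1.1, b2⟩, b1.2⟩
    rw [this]
    exact IsGδ.iInter_of_isOpen fun n => isOpen_biUnion fun i hi => (a1 i hi.1).1
  · obtain ⟨I, a1, a2, a3⟩ := TLC3.core h hX b tb {V | P V}
      (fun x => (hP x).imp fun V a => ⟨a.2, a.1⟩) fun _ => {0}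
    refine ⟨Prod.fst '' I, forall_mem_image.2 a1, fun x => ?_, fun x =>
      ((a3 x (finite_singleton _)).image Prod.fst).subset ?_⟩
    · obtain ⟨i, b1, -, b3⟩ := a2 x 0 rfl
      exact ⟨_, ⟨i, b1, rfl⟩, b3⟩
    · rintro _ ⟨⟨i, b1, rfl⟩, b2⟩
      exact ⟨i, ⟨b1, b2⟩, rfl⟩

end Pool.Agent.Results.MP_57347c_gt.LocallySmall
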